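import Pool.Agent.Lib.MP_19a1ab_nt.Param

namespace Pool.Agent.Results.MP_19a1ab_nt.TwoFamilies

open Pool.Agent.Lib.MP_19a1ab_nt

/-- `S` is a polynomial family: the set of values at integer points of one tuple of polynomials
with integer coefficients in finitely many variables. -/
def IsPolyFamily {n : ℕ} (S : Set (Fin n → ℤ)) : Prop :=
  ∃ (k : ℕ) (P : Fin n → MvPolynomial (Fin k) ℤ),
    ∀ x : Fin n → ℤ, x ∈ S ↔ ∃ u : Fin k → ℤ, ∀ i, x i = MvPolynomial.eval u (P i)

theorem result : ∃ F : Fin 2 → Set (Fin 4 → ℤ), (∀ j, IsPolyFamily (F j)) ∧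
    {v : Fin 4 → ℤ | v 0 ^ 2 + v 1 ^ 2 + v 2 * v 3 + 1 = 0} = ⋃ j, F j := by
  obtain ⟨k, P, h⟩ := herm_param
  refine ⟨![{v | Herm (v 0) (v 1) (v 2) (-v 3)}, {v | Herm (v 0) (v 1) (-v 2) (v 3)}], ?_, ?_⟩
  · intro j
    fin_cases j
    · refine ⟨k, ![P 0, P 1, P 2, -P 3], fun v => ?_⟩
      refine (h _ _ _ _).trans (exists_congr fun u => ?_)
      simp [Fin.forall_fin_succ, neg_eq_iff_eq_neg]
    · refine ⟨k, ![P 0, P 1, -P 2, P 3], fun v => ?_⟩
      refine (h _ _ _ _).trans (exists_congr fun u => ?_)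
      simp [Fin.forall_fin_succ, neg_eq_iff_eq_neg]
  · ext v
    simp only [Set.mem_ofPred_eq, Set.mem_iUnion]
    constructor
    · intro hv
      rcases lt_trichotomy (v 2) 0 with h2 | h2 | h2
      · exact ⟨1, herm_of_pos (-v 2).toNat _ _ _ _ (by omega) (by omega)
          (by linear_combination -hv)⟩
      · exfalso
        rw [h2] at hv
        nlinarith
      · exact ⟨0, herm_of_pos (v 2).toNat _ _ _ _ (by omega) h2 (by linear_combination -hv)⟩
    · rintro ⟨j, hj⟩
      fin_cases j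
      · linear_combination -(Herm.eq hj)
      · linear_combination -(Herm.eq hj)

end Pool.Agent.Results.MP_19a1ab_nt.TwoFamilies
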